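import Pool.Agent.KS6_49.ID.Basic

namespace Pool.Agent.KS6_49.ID

open Polynomial

/-- Exchange of the two halves of the coordinates. -/
def halfSwap (m : ℕ) : Equiv.Perm (Fin (2 * m)) where
  toFun k := if h : (k : ℕ) < m then ⟨k + m, by omega⟩ else ⟨k - m, by omega⟩
  invFun k := if h : (k : ℕ) < m then ⟨k + m, by omega⟩ else ⟨k - m, by omega⟩
  left_inv k := by
    ext
    by_cases h : (k : ℕ) < m <;> simp [h]
    rw [dif_pos (by omega)]
    simp; omega
  right_inv k := by
    ext
    by_cases h : (k : ℕ) < m <;> simp [h]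
    rw [dif_pos (by omega)]
    simp; omega

theorem halfSwap_val_lt {m : ℕ} (k : Fin (2 * m)) (h : (k : ℕ) < m) :
    ((halfSwap m k : Fin (2 * m)) : ℕ) = k + m := by
  simp [halfSwap, h]

theorem halfSwap_val_ge {m : ℕ} (k : Fin (2 * m)) (h : ¬ (k : ℕ) < m) :
    ((halfSwap m k : Fin (2 * m)) : ℕ) = k - m := by
  simp [halfSwap, h]

/-- the product sum as a sum over a range -/
theorem sum_halfSwap {m : ℕ} (c d : Fin (2 * m) → ZMod 2) :
    ∑ k, c k * d (halfSwap m k) =
      ∑ k ∈ Finset.range m, (toPoly c).coeff k * (toPoly d).coeff (k + m) +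
      ∑ k ∈ Finset.range m, (toPoly c).coeff (m + k) * (toPoly d).coeff k := by
  have h1 : ∑ k, c k * d (halfSwap m k) =
      ∑ k ∈ Finset.range (2 * m), (toPoly c).coeff k *
        (toPoly d).coeff (if k < m then k + m else k - m) := by
    rw [Finset.sum_range]
    apply Finset.sum_congr rfl
    intro k _
    rw [toPoly_coeff_lt]
    congr 1
    rw [← toPoly_coeff_lt d (halfSwap m k)]
    split_ifs with h
    · rw [halfSwap_val_lt k h]
    · rw [halfSwap_val_ge k h]
  have h2 : Finset.range (2 * m) = Finset.range (m + m) := by rw [two_mul]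
  rw [h1, h2, Finset.sum_range_add]
  congr 1
  · apply Finset.sum_congr rfl
    intro k hk
    rw [if_pos (Finset.mem_range.mp hk)]
  · apply Finset.sum_congr rfl
    intro k hk
    rw [if_neg (by omega)]
    congr 2
    omega

theorem orth_swap {m : ℕ} (hm : 0 < m) {g : (ZMod 2)[X]} (hdeg : g.natDegree = m)
    (hg : g * g.reverse = tri (2 * m) m)
    (c d : Fin (2 * m) → ZMod 2) (hc : g ∣ toPoly c) (hd : g ∣ toPoly d) :
    ∑ k, c k * d (halfSwap m k) = 0 := by
  rw [sum_halfSwap]
  have hPd := toPoly_natDegree (by omega : 0 < 2 * m) c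
  have hQd := toPoly_natDegree (by omega : 0 < 2 * m) d
  set P := toPoly c with hP
  set Q := toPoly d with hQ
  obtain ⟨a, ha⟩ := hc
  obtain ⟨b, hb⟩ := hd
  have hg0 : g ≠ 0 := by
    rintro rfl
    simp at hdeg; omega
  have hda : a.natDegree ≤ m - 1 := by
    by_cases h0 : a = 0
    · simp [h0]
    · rw [ha, natDegree_mul hg0 h0] at hPd; omega
  have hdb : b.natDegree ≤ m - 1 := by
    by_cases h0 : b = 0
    · simp [h0]
    · rw [hb, natDegree_mul hg0 h0] at hQd; omega
  have hrefl : reflect (2 * m - 1) Q = g.reverse * reflect (m - 1) b := by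
    rw [hb, show 2 * m - 1 = m + (m - 1) by omega, reflect_mul g b hdeg.le hdb]
    congr 1
    rw [← hdeg]; rfl
  set u := a * reflect (m - 1) b with hu
  have hprod : P * reflect (2 * m - 1) Q = tri (2 * m) m * u := by
    rw [hrefl, ha, ← hg, hu]; ring
  have hud : u.natDegree ≤ 2 * m - 2 := by
    refine natDegree_mul_le.trans ?_
    have : (reflect (m - 1) b).natDegree ≤ m - 1 := by
      rw [natDegree_le_iff_coeff_eq_zero]
      intro N hN
      rw [coeff_reflect, revAt_eq_self_of_lt hN]
      exact coeff_eq_zero_of_natDegree_lt (by omega)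
    omega
  have hcoef : ∀ N, (tri (2 * m) m * u).coeff N =
      (if 2 * m ≤ N then u.coeff (N - 2 * m) else 0) +
      (if m ≤ N then u.coeff (N - m) else 0) + u.coeff N := by
    intro N
    unfold tri
    rw [add_mul, add_mul, coeff_add, coeff_add, one_mul, coeff_X_pow_mul', coeff_X_pow_mul']
  have e1 : (P * reflect (2 * m - 1) Q).coeff (m - 1) = u.coeff (m - 1) := by
    rw [hprod, hcoef, if_neg (by omega), if_neg (by omega)]; simp
  have e2 : (P * reflect (2 * m - 1) Q).coeff (3 * m - 1) = u.coeff (m - 1) := by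
    rw [hprod, hcoef, if_pos (by omega), if_pos (by omega),
      coeff_eq_zero_of_natDegree_lt (n := 3 * m - 1 - m) (by omega),
      coeff_eq_zero_of_natDegree_lt (n := 3 * m - 1) (by omega),
      show 3 * m - 1 - 2 * m = m - 1 by omega]
    simp
  have f1 : (P * reflect (2 * m - 1) Q).coeff (m - 1) =
      ∑ k ∈ Finset.range m, P.coeff k * Q.coeff (k + m) := by
    rw [coeff_mul, Finset.Nat.sum_antidiagonal_eq_sum_range_succ
      (fun i j => P.coeff i * (reflect (2 * m - 1) Q).coeff j), show (m - 1).succ = m by omega]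
    apply Finset.sum_congr rfl
    intro k hk
    have hk' := Finset.mem_range.mp hk
    rw [coeff_reflect, revAt_le (by omega)]
    congr 2
    omega
  have f2 : (P * reflect (2 * m - 1) Q).coeff (3 * m - 1) =
      ∑ k ∈ Finset.range m, P.coeff (m + k) * Q.coeff k := by
    rw [coeff_mul, Finset.Nat.sum_antidiagonal_eq_sum_range_succ
      (fun i j => P.coeff i * (reflect (2 * m - 1) Q).coeff j),
      show (3 * m - 1).succ = m + m + m by omega, Finset.sum_range_add, Finset.sum_range_add]
    have z1 : ∑ x ∈ Finset.range m, P.coeff x * (reflect (2 * m - 1) Q).coeff (3 * m - 1 - x)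
        = 0 := by
      apply Finset.sum_eq_zero
      intro k hk
      have hk' := Finset.mem_range.mp hk
      rw [coeff_reflect, revAt_eq_self_of_lt (by omega),
        coeff_eq_zero_of_natDegree_lt (p := Q) (by omega), mul_zero]
    have z3 : ∑ x ∈ Finset.range m, P.coeff (m + m + x) *
        (reflect (2 * m - 1) Q).coeff (3 * m - 1 - (m + m + x)) = 0 := by
      apply Finset.sum_eq_zero
      intro k hk
      rw [coeff_eq_zero_of_natDegree_lt (p := P) (by omega), zero_mul]
    rw [z1, z3, zero_add, add_zero]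
    apply Finset.sum_congr rfl
    intro k hk
    have hk' := Finset.mem_range.mp hk
    rw [coeff_reflect, revAt_le (by omega)]
    congr 2
    omega
  rw [← f1, ← f2, e1, e2]
  exact CharTwo.add_self_eq_zero _

end Pool.Agent.KS6_49.ID
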